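import Pool.Agent.H2.KM.Targets

/-!
# Row MEM of the board kim_modules: classes
-/

set_option autoImplicit false

open Matrix Pool.Agent.H2.NL Pool.Agent.H2.KM Pool.Agent.H64.CC

namespace Pool.Agent.H40.KM

theorem pf_MEM (h1 : T_GSW) (h2 : T_GCN) (h3 : T_RCH) : T_MEM := by
  intro K _ _ I _ _ F A hC x hx
  refine ⟨?_, ?_, ?_, ?_⟩
  · intro k s s' hs hlen hmem
    obtain ⟨js, hjs, rfl⟩ := h3 Bool s s' hs
    have key : ∀ js : List ℕ, (∀ j ∈ js, j + 2 ≤ s.length) → Gp F.o (exs js s) x ∈ A k := by
      intro js
      induction js with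
      | nil => intro _; exact hmem
      | cons j js ih =>
        intro hj
        have h4 := ih fun i hi => hj i (List.mem_cons_of_mem _ hi)
        have h5 : j + 2 ≤ 2 * k := by
          rw [← hlen]
          exact hj j List.mem_cons_self
        have h6 := hC.sw k j _ h4 h5
        rw [h1 K I F.o x hx] at h6
        exact h6
    exact key js hjs
  · intro k p q hM s hp hq
    have h4 : Gp F.o (true :: true :: s) x ∈ A (k + 1) := by
      refine hM _ ?_ ?_
      · simp [hp]
      · simp [hq]
    have h5 := hC.con k 0 _ h4 (Nat.zero_le _)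
    rw [h2 K I F x true true s] at h5
    exact h5
  · intro k p q hM s hp hq
    have h4 : Gp F.o (false :: false :: s) x ∈ A (k + 1) := by
      refine hM _ ?_ ?_
      · simp [hp]
      · simp [hq]
    have h5 := hC.con k 0 _ h4 (Nat.zero_le _)
    rw [h2 K I F x false false s] at h5
    exact h5
  · intro k p q hM s hp hq
    have h4 : Gp F.o (true :: false :: s) x ∈ A (k + 1) := by
      refine hM _ ?_ ?_
      · simp [hp]
      · simp [hq]
    have h5 := hC.con k 0 _ h4 (Nat.zero_le _)
    rw [h2 K I F x true false s] at h5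
    exact h5

end Pool.Agent.H40.KM
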